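import Pool.Agent.W56.SG2

set_option autoImplicit false

/-!
# Subgaussian sets of characters of `(ℤ/m)^ℕ`

The theorem is proved for every `m ≥ 1`; the case `m = 4` is question Q1.
-/

namespace Pool.Agent.Results.MP_080bf7_an.SubgaussianIff

open MeasureTheory

/-- The character `γ_n(t) = exp(2πi (∑_k t_k n_k) / m)` of `G = (ℤ/m)^ℕ` attached to the finitely
supported sequence `n`. -/
noncomputable def chr (m : ℕ) (n : ℕ →₀ ZMod m) (t : ℕ → ZMod m) : ℂ :=
  Complex.exp (2 * Real.pi * Complex.I * ((∑ k ∈ n.support, (t k).val * (n k).val : ℕ) : ℂ) / m)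

/-- The normalised Haar measure of the compact group `G = (ℤ/m)^ℕ`. -/
noncomputable def haar (m : ℕ) [NeZero m] : Measure (ℕ → ZMod m) :=
  Measure.addHaarMeasure ⊤

/-- `‖f‖_{ψ₂} = inf {c > 0 : ∫_G exp(|f|² / c²) ≤ e}`. -/
noncomputable def psi2Norm (m : ℕ) [NeZero m] (f : (ℕ → ZMod m) → ℂ) : ℝ :=
  sInf {c : ℝ | 0 < c ∧ ∫⁻ t, ENNReal.ofReal (Real.exp (‖f t‖ ^ 2 / c ^ 2)) ∂(haar m) ≤
    ENNReal.ofReal (Real.exp 1)}

/-- `Λ` is subgaussian: `‖∑ a_n γ_n‖_{ψ₂} ≤ C (∑ |a_n|²)^{1/2}` for all finitely supported families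
of complex coefficients on `Λ`. -/
def IsSubgaussian (m : ℕ) [NeZero m] (Λ : Set (ℕ →₀ ZMod m)) : Prop :=
  ∃ C : ℝ, ∀ (A : Finset (ℕ →₀ ZMod m)) (a : (ℕ →₀ ZMod m) → ℂ), (A : Set (ℕ →₀ ZMod m)) ⊆ Λ →
    psi2Norm m (fun t => ∑ n ∈ A, a n * chr m n t) ≤ C * Real.sqrt (∑ n ∈ A, ‖a n‖ ^ 2)

/-- `Λ` is quasi-independent: a relation `∑_{n ∈ A} ξ_n n = 0` with `A ⊆ Λ` finite and
`ξ_n ∈ {-1, 0, 1}` is trivial. -/
def QuasiIndependent (m : ℕ) (Λ : Set (ℕ →₀ ZMod m)) : Prop :=
  ∀ A : Finset (ℕ →₀ ZMod m), (A : Set (ℕ →₀ ZMod m)) ⊆ Λ → ∀ ξ : (ℕ →₀ ZMod m) → ℤ,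
    (∀ n ∈ A, ξ n = -1 ∨ ξ n = 0 ∨ ξ n = 1) → ∑ n ∈ A, ξ n • n = 0 → ∀ n ∈ A, ξ n = 0

theorem chr_eq (m : ℕ) [NeZero m] (n : ℕ →₀ ZMod m) (t : ℕ → ZMod m) :
    chr m n t = ZMod.stdAddChar (n.sum fun k x => t k * x) := by
  have h1 : (n.sum fun k x => t k * x) =
      (((∑ k ∈ n.support, (t k).val * (n k).val : ℕ) : ℤ) : ZMod m) := by
    unfold Finsupp.sum
    push_cast
    apply Finset.sum_congr rfl
    intro k _
    rw [ZMod.natCast_zmod_val, ZMod.natCast_zmod_val]
  rw [h1, ZMod.stdAddChar_coe]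
  unfold chr
  push_cast
  rfl

instance haar_prob (m : ℕ) [NeZero m] : IsProbabilityMeasure (haar m) := by
  constructor
  have h := Measure.addHaarMeasure_self (K₀ := (⊤ : TopologicalSpace.PositiveCompacts (ℕ → ZMod m)))
  rw [TopologicalSpace.PositiveCompacts.coe_top] at h
  exact h

instance haar_inv (m : ℕ) [NeZero m] : (haar m).IsAddLeftInvariant := by
  unfold haar; infer_instance

theorem charSys (m : ℕ) [NeZero m] : Pool.Agent.W56.SG.CharSys (haar m) (chr m) where
  zero x := by rw [chr_eq]; simp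
  add n n' x := by
    rw [chr_eq, chr_eq, chr_eq, ← AddChar.map_add_eq_mul]
    congr 1
    exact Finsupp.sum_add_index' (fun k => mul_zero _) (fun k a b => mul_add _ _ _)
  norm n x := by rw [chr_eq, AddChar.norm_apply]
  meas n := by
    have h1 : chr m n = fun t => ZMod.stdAddChar (n.sum fun k x => t k * x) := funext (chr_eq m n)
    rw [h1]
    apply (measurable_of_finite _).comp
    unfold Finsupp.sum
    apply Finset.measurable_sum
    intro k _
    exact (measurable_of_finite (fun y : ZMod m => y * n k)).comp (measurable_pi_apply k)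
  int n hn := by
    obtain ⟨k, hk⟩ : ∃ k, n k ≠ 0 := by
      by_contra hcon
      push Not at hcon
      exact hn (Finsupp.ext hcon)
    set s : ℕ → ZMod m := Pi.single k 1 with hs
    have h1 : ∀ t, chr m n (s + t) = chr m n s * chr m n t := by
      intro t
      rw [chr_eq, chr_eq, chr_eq, ← AddChar.map_add_eq_mul]
      congr 1
      unfold Finsupp.sum
      rw [← Finset.sum_add_distrib]
      apply Finset.sum_congr rfl
      intro j _
      show (s + t) j * n j = s j * n j + t j * n j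
      rw [Pi.add_apply, add_mul]
    have h2 : chr m n s ≠ 1 := by
      rw [chr_eq]
      have h3 : (n.sum fun j x => s j * x) = n k := by
        unfold Finsupp.sum
        rw [Finset.sum_eq_single k]
        · simp [hs]
        · intro j _ hj
          simp [hs, Pi.single_eq_of_ne hj]
        · intro hk'
          rw [Finsupp.mem_support_iff, not_not] at hk'
          exact absurd hk' hk
      rw [h3]
      intro h4
      have h5 : ZMod.stdAddChar (n k) = ZMod.stdAddChar (0 : ZMod m) := by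
        rw [h4, AddChar.map_zero_eq_one]
      exact hk (ZMod.injective_stdAddChar h5)
    have h3 : ∫ t, chr m n t ∂(haar m) = chr m n s * ∫ t, chr m n t ∂(haar m) := by
      rw [← integral_const_mul]
      rw [← integral_add_left_eq_self (fun t => chr m n t) s]
      exact integral_congr_ae (Filter.Eventually.of_forall h1)
    have h4 : (1 - chr m n s) * ∫ t, chr m n t ∂(haar m) = 0 := by
      rw [sub_mul, one_mul, ← h3, sub_self]
    rcases mul_eq_zero.mp h4 with h5 | h5
    · exact absurd (sub_eq_zero.mp h5).symm h2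
    · exact h5

/-- For every `m ≥ 1` and every set `Λ` of nontrivial characters of `G = (ℤ/m)^ℕ`, `Λ` is
subgaussian if and only if it is a finite union of quasi-independent sets. (`m = 4` is Q1.) -/
theorem result (m : ℕ) [NeZero m] (Λ : Set (ℕ →₀ ZMod m)) (h0 : (0 : ℕ →₀ ZMod m) ∉ Λ) :
    IsSubgaussian m Λ ↔
      ∃ (k : ℕ) (Q : Fin k → Set (ℕ →₀ ZMod m)), (∀ i, QuasiIndependent m (Q i)) ∧ Λ = ⋃ i, Q i :=
  Pool.Agent.W56.SG.main (charSys m) m (NeZero.pos m) Λ h0 (fun x _ => by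
    ext k
    rw [Finsupp.smul_apply, Finsupp.zero_apply, nsmul_eq_mul, ZMod.natCast_self, zero_mul])

end Pool.Agent.Results.MP_080bf7_an.SubgaussianIff
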